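import Pool.Agent.H45.Scat.Main

/-!
# Exact degrees of the coefficients of rank 2 cluster scattering diagrams

For integers `b, c ≥ 1` the rank 2 cluster scattering diagram of `(0 c; -b 0)` has the two full
walls with functions `1 + ŷ₁`, `1 + ŷ₂` and one outgoing wall with function `f_{n₀}` for every
primitive `n₀` with positive coordinates. A family `U` of polynomials in `b, c` consists of the
exponents of these wall functions (`IsExponents U`) if for all integers `b, c ≥ 1` the diagram
with `f_{n₀} = (∏ (1 + ŷ^{k n₀})^{U_{k n₀}(c,b)})^{g(n₀; b, c)}` is consistent.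

Here we prove from this definition that such a family exists, that it is unique, and that the
coefficient `τ(n; k)` of `G^k` in `T_n` has degree exactly `n₂ - k` in `b` and exactly `n₁ - k` in
`c`; indeed the coefficient of `b^{n₂-k} c^{n₁-k}` is positive.

The idea: write `f_{n₀} = exp (g ∑ a_{k n₀} z^k)`. Moving the logarithmic derivative of the wall
`1 + ŷ₂` through the walls, in the order of increasing slope, gives a recursion for
`h_n = b c a_n`, which shows that `h_n` is a polynomial of degree at most `n₂` in `b` and at most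
`n₁` in `c`, divisible by `b c`, and that the coefficients of `b^{n₂} c^{n₁}` obey a positive
recursion. The coefficient of `G^k` in `exp (G ∑ a_j z^j)` inherits this.
-/

set_option autoImplicit false

namespace Pool.Agent.Results.MP_af966c_co.ExactDegrees

open Pool.Agent.H45.Scat

/-- The logarithmic coefficients determine the exponents. -/
theorem eq_of_aOf {x y : ℕ → Pol} (h : ∀ k, 1 ≤ k → aOf x k = aOf y k) :
    ∀ k, 1 ≤ k → x k = y k := by
  intro k
  induction k using Nat.strong_induction_on with
  | _ k ih =>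
    intro hk
    have h1 := mul_aOf x hk
    rw [h k hk, mul_aOf y hk, ← Nat.cons_self_properDivisors (by omega : k ≠ 0), Finset.sum_cons,
      Finset.sum_cons] at h1
    have h2 : ∑ j ∈ k.properDivisors, (-1 : Pol) ^ (k / j - 1) * (j : Pol) * y j =
        ∑ j ∈ k.properDivisors, (-1) ^ (k / j - 1) * (j : Pol) * x j := by
      refine Finset.sum_congr rfl fun j hj => ?_
      have hlt := (Nat.mem_properDivisors.1 hj).2
      have hpos := Nat.pos_of_dvd_of_pos (Nat.mem_properDivisors.1 hj).1 hk
      rw [ih j hlt hpos]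
    rw [h2] at h1
    have h3 := add_right_cancel h1
    rw [Nat.div_self hk] at h3
    simp only [Nat.sub_self, pow_zero, one_mul] at h3
    have h4 : (k : Pol) ≠ 0 := by
      have : k ≠ 0 := by omega
      exact_mod_cast this
    exact (mul_left_cancel₀ h4 h3).symm

/-- **Exact degrees of `τ(n; k)`.** There is a family `U` of polynomials in `b, c` that are the
exponents of the rank 2 cluster scattering diagrams for all `b, c ≥ 1`; it is unique (at all `n`
with positive coordinates); and for all `n₁, n₂ ≥ 1` and `1 ≤ k ≤ gcd (n₁, n₂)` the polynomial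
`τ(n; k)` has degree `n₂ - k` in `b` and `n₁ - k` in `c`, and its coefficient of
`b^{n₂-k} c^{n₁-k}` is positive. -/
theorem result : ∃ U : ℕ × ℕ → Pol, IsExponents U ∧
    (∀ U' : ℕ × ℕ → Pol, IsExponents U' → ∀ n : ℕ × ℕ, 1 ≤ n.1 → 1 ≤ n.2 → U' n = U n) ∧
    ∀ n : ℕ × ℕ, 1 ≤ n.1 → 1 ≤ n.2 → ∀ k : ℕ, 1 ≤ k → k ≤ Nat.gcd n.1 n.2 →
      MvPolynomial.degreeOf 0 (tau U n k) = n.2 - k ∧
      MvPolynomial.degreeOf 1 (tau U n k) = n.1 - k ∧
      0 < MvPolynomial.coeff (Finsupp.single 0 (n.2 - k) + Finsupp.single 1 (n.1 - k))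
        (tau U n k) := by
  obtain ⟨U, hU⟩ := main.1
  refine ⟨U, hU, ?_, ?_⟩
  · intro U' hU' n h1 h2
    have hn : 1 ≤ n.1 + n.2 := by omega
    have hμ := prim_coprime hn
    have e1 : n.1 = Nat.gcd n.1 n.2 * (prim n).1 := by
      conv_lhs => rw [← gcd_smul_prim n]
      simp
    have e2 : n.2 = Nat.gcd n.1 n.2 * (prim n).2 := by
      conv_lhs => rw [← gcd_smul_prim n]
      simp
    have p1 : 1 ≤ (prim n).1 := by
      rcases Nat.eq_zero_or_pos (prim n).1 with h | h
      · rw [h, mul_zero] at e1
        omega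
      · exact h
    have p2 : 1 ≤ (prim n).2 := by
      rcases Nat.eq_zero_or_pos (prim n).2 with h | h
      · rw [h, mul_zero] at e2
        omega
      · exact h
    have := eq_of_aOf (x := fun j => U' (j • prim n)) (y := fun j => U (j • prim n))
      (fun k hk => aOf_unique hU' hU p1 p2 hμ k hk) (Nat.gcd n.1 n.2) (gcd_pos_of hn)
    simp only [gcd_smul_prim] at this
    exact this
  · intro n h1 h2 k hk1 hk2
    obtain ⟨h3, h4⟩ := main.2 U hU n h1 h2 k hk1 hk2
    obtain ⟨h5, h6⟩ := degreeOf_of_bd h3 h4
    exact ⟨h5, h6, h4⟩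

end Pool.Agent.Results.MP_af966c_co.ExactDegrees
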